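import Pool.Agent.Lib.MP_ace873.Proof

/-!
# MP_ace873_an: a polyhedral space `Y` and `u ∈ L₁([0,1], Y)` without optimal representation
-/

set_option autoImplicit false

open MeasureTheory

namespace Pool.Agent.Results.MP_ace873_an.PolyhedralCounterexample

open Pool.Agent.Lib.MP_ace873

/-- There are a real polyhedral Banach space `Y` and an element `u` of
`L₁([0,1], Y) = L₁([0,1]) ⊗̂_π Y` (Lebesgue measure) that is not norm-attaining. -/
theorem result : ∃ (Y : Type) (_ : NormedAddCommGroup Y) (_ : NormedSpace ℝ Y)
    (_ : CompleteSpace Y), IsPolyhedral Y ∧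
      ∃ u : Lp Y 1 (volume.restrict (Set.Icc (0 : ℝ) 1)), ¬ IsNormAttaining u :=
  main

end Pool.Agent.Results.MP_ace873_an.PolyhedralCounterexample
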